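import Mathlib

/-!
# Pixley-Roy hyperspaces of selectively highly divergent spaces

For every `T1` space `X`: if `X` is selectively highly divergent, then so is its Pixley-Roy
hyperspace.
-/

open Filter Topology

namespace Pool.Agent.Results.MP_3a5480_gt.PixleyRoyOfSHD

/-- `X` is selectively highly divergent: for every sequence of non-empty open sets `U n` one can
choose points `x n ∈ U n` such that no subsequence of `x` converges to any point of `X`. -/
def SHD (X : Type*) [TopologicalSpace X] : Prop :=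
  ∀ U : ℕ → Set X, (∀ n, IsOpen (U n)) → (∀ n, (U n).Nonempty) →
    ∃ x : ℕ → X, (∀ n, x n ∈ U n) ∧
      ∀ φ : ℕ → ℕ, StrictMono φ → ∀ a : X, ¬ Tendsto (x ∘ φ) atTop (𝓝 a)

/-- The set of all non-empty finite subsets of `X`. -/
def PR (X : Type*) : Type _ := {A : Set X // A.Nonempty ∧ A.Finite}

/-- The basic set `[F, V]` of all non-empty finite `H` with `F ⊆ H ⊆ V`. -/
def box {X : Type*} (F V : Set X) : Set (PR X) := {H | F ⊆ H.1 ∧ H.1 ⊆ V}

/-- The Pixley-Roy topology: a set `W` of non-empty finite sets is open exactly if for each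
`F ∈ W` there is an open `V ⊇ F` in `X` with `[F, V] ⊆ W`. -/
instance (X : Type*) [TopologicalSpace X] : TopologicalSpace (PR X) where
  IsOpen W := ∀ F ∈ W, ∃ V : Set X, IsOpen V ∧ F.1 ⊆ V ∧ box F.1 V ⊆ W
  isOpen_univ := fun F _ => ⟨Set.univ, isOpen_univ, Set.subset_univ _, Set.subset_univ _⟩
  isOpen_inter := by
    rintro W₁ W₂ h₁ h₂ F ⟨hF₁, hF₂⟩
    obtain ⟨V₁, hV₁, hFV₁, hb₁⟩ := h₁ F hF₁
    obtain ⟨V₂, hV₂, hFV₂, hb₂⟩ := h₂ F hF₂
    refine ⟨V₁ ∩ V₂, hV₁.inter hV₂, Set.subset_inter hFV₁ hFV₂, ?_⟩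
    rintro H ⟨hFH, hHV⟩
    exact ⟨hb₁ ⟨hFH, hHV.trans Set.inter_subset_left⟩, hb₂ ⟨hFH, hHV.trans Set.inter_subset_right⟩⟩
  isOpen_sUnion := by
    rintro S hS F ⟨W, hWS, hFW⟩
    obtain ⟨V, hV, hFV, hb⟩ := hS W hWS F hFW
    exact ⟨V, hV, hFV, hb.trans (Set.subset_sUnion_of_mem hWS)⟩

/-- Every set `[F, V]` with `V` open is open. -/
theorem isOpen_box {X : Type*} [TopologicalSpace X] (F : Set X) {V : Set X} (hV : IsOpen V) :
    IsOpen (box F V) := by
  rintro H ⟨hFH, hHV⟩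
  exact ⟨V, hV, hHV, fun G hG => ⟨hFH.trans hG.1, hG.2⟩⟩

/-- The sets `[F, V]`, with `V` open and `F ⊆ V`, form a local base at `F`. -/
theorem hasBasis_nhds {X : Type*} [TopologicalSpace X] (F : PR X) :
    (𝓝 F).HasBasis (fun V : Set X => IsOpen V ∧ F.1 ⊆ V) (fun V => box F.1 V) := by
  refine ⟨fun W => ⟨fun hW => ?_, ?_⟩⟩
  · obtain ⟨W', hW'W, hW', hF⟩ := mem_nhds_iff.1 hW
    obtain ⟨V, hV, hFV, hb⟩ := hW' F hF
    exact ⟨V, ⟨hV, hFV⟩, hb.trans hW'W⟩
  · rintro ⟨V, ⟨hV, hFV⟩, hb⟩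
    exact mem_of_superset ((isOpen_box F.1 hV).mem_nhds ⟨subset_rfl, hFV⟩) hb

/-- If no subsequence of `x` converges, then every finite set has an open neighbourhood that
misses infinitely many terms of any given subsequence. -/
theorem exists_open_miss {X : Type*} [TopologicalSpace X] {x : ℕ → X}
    (hx : ∀ φ : ℕ → ℕ, StrictMono φ → ∀ a : X, ¬ Tendsto (x ∘ φ) atTop (𝓝 a))
    {H : Set X} (hH : H.Finite) :
    ∀ φ : ℕ → ℕ, StrictMono φ → ∃ V : Set X, IsOpen V ∧ H ⊆ V ∧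
      ∃ ψ : ℕ → ℕ, StrictMono ψ ∧ ∀ k, x (φ (ψ k)) ∉ V := by
  induction H, hH using Set.Finite.induction_on with
  | empty =>
      intro φ _
      exact ⟨∅, isOpen_empty, subset_rfl, id, strictMono_id, fun _ h => h⟩
  | @insert a s _ _ ih =>
      intro φ hφ
      obtain ⟨V, hV, hsV, ψ, hψ, hmiss⟩ := ih φ hφ
      have hnt := hx (φ ∘ ψ) (hφ.comp hψ) a
      rw [tendsto_nhds] at hnt
      push Not at hnt
      obtain ⟨O, hO, haO, hfreq⟩ := hnt
      have hfreq' : ∃ᶠ k in atTop, x (φ (ψ k)) ∉ O := by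
        intro h
        apply hfreq
        filter_upwards [h] with k hk
        exact not_not.1 hk
      obtain ⟨θ, hθ, hθO⟩ := extraction_of_frequently_atTop hfreq'
      refine ⟨V ∪ O, hV.union hO, ?_, ψ ∘ θ, hψ.comp hθ, ?_⟩
      · exact Set.insert_subset (Or.inr haO) (hsV.trans Set.subset_union_left)
      · rintro k (h | h)
        · exact hmiss (θ k) h
        · exact hθO k h

theorem result {X : Type*} [TopologicalSpace X] [T1Space X] (hX : SHD X) : SHD (PR X) := by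
  classical
  intro W hW hWne
  choose F hF using hWne
  choose V hV hFV hb using fun n => hW n (F n) (hF n)
  obtain ⟨x, hxV, hx⟩ := hX V hV fun n => (F n).2.1.mono (hFV n)
  refine ⟨fun n => ⟨insert (x n) (F n).1, Set.insert_nonempty _ _, (F n).2.2.insert _⟩,
    fun n => hb n ⟨Set.subset_insert _ _, Set.insert_subset (hxV n) (hFV n)⟩, ?_⟩
  intro φ hφ H hlim
  obtain ⟨O, hO, hHO, ψ, hψ, hmiss⟩ := exists_open_miss hx H.2.2 φ hφ
  have hev : ∀ᶠ k in atTop,
      (⟨insert (x (φ k)) (F (φ k)).1, Set.insert_nonempty _ _, (F (φ k)).2.2.insert _⟩ : PR X)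
        ∈ box H.1 O :=
    hlim ((isOpen_box H.1 hO).mem_nhds ⟨subset_rfl, hHO⟩)
  obtain ⟨N, hN⟩ := eventually_atTop.1 hev
  exact hmiss N ((hN (ψ N) (hψ.id_le N)).2 (Set.mem_insert _ _))

end Pool.Agent.Results.MP_3a5480_gt.PixleyRoyOfSHD
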